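import Pool.Agent.Work.MP_db9399_sx.Prep
import Pool.Agent.Work.MP_db9399_vt.Interface

/-!
# MP_db9399, PHASE 2 of exception (iii): blocks of PREP (owner helper38)

From the spots to `Prep`: guards, tests for the labels, own colours of the outer vertices,
availability. See `BLUEPRINT.md`.
-/

set_option autoImplicit false

namespace Pool.Agent.Work.MP_db9399_sx

open Finset Classical
open Pool.Agent.Work.MP_db9399_all (nb)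
open Pool.Agent.Work.MP_db9399_dn (IsMat Tot)
open Pool.Agent.Work.MP_db9399_bg (den cl HPre)
open Pool.Agent.Work.MP_db9399_lh (Lh ce su sp pt)
open Pool.Agent.Work.MP_db9399_ot.helper1 (Kp Lb kt)
open Pool.Agent.Work.MP_db9399_sl (InS Same Gout Gss Gin Gex Out Vert Spt Bip Nsc)
open Pool.Agent.Work.MP_db9399_sv (Cor Mis slo ms FE GsL GxL bt slL Bas Lab Big Sma Sit)
open Pool.Agent.Work.MP_db9399_sw (shs sms wt wl od ac avl SHH Gxh Grh Lgt mM avgL TQ LabD ColD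
  Exs fiR)
open Pool.Agent.Work.MP_db9399_vt (fb outer)
open _root_.MP_db9399_co

universe u

section defs
variable {V : Type u} [Fintype V] {k : ℕ}

/-- the vertices of `Y` with a neighbour in `UH \ Y` of own colour `b` -/
noncomputable def ubl (G : SimpleGraph V) (UH : Finset V) (c0 : V → Fin k) (Y : Finset V)
    (b : Fin k) : Finset V := Y.filter (fun v => ∃ w ∈ UH, w ∉ Y ∧ G.Adj v w ∧ c0 w = b)

/-- the guards and their properties -/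
structure Gds (ε : ℝ) (G EH : SimpleGraph V) (d : ℕ) (Ys : Finset (Finset V))
    (UH Hs Gd : Finset V) (c0 : V → Fin k) : Prop where
  mem : ∀ v ∈ Gd, v ∉ UH ∧ v ∉ Hs ∧ (∃ Y ∈ sms G d Hs Ys, v ∈ Y) ∧
    (od G Ys v : ℝ) ≤ Real.log d ^ 5
  ind : ∀ v ∈ Gd, ∀ w ∈ Gd, ¬ (Gss G EH Ys).Adj v w
  ss : ∀ Y ∈ shs d Ys, ((∑ v ∈ Y, (nb (Gss G EH Ys) v ∩ Gd).card : ℕ) : ℝ) ≤
    ε * Real.log d ^ 8 * Y.card
  gss : ∀ Y ∈ shs d Ys, Y ∉ sms G d Hs Ys →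
    ((∑ v ∈ Y \ Hs, (nb (Gss G EH Ys) v ∩ Gd).card : ℕ) : ℝ) ≤ ε * wl G d Hs Y
  out : ∀ w, ¬ InS Ys w → ((nb G w ∩ Gd).card : ℝ) ≤ Real.log d ^ 9
  t0 : ∀ Y ∈ sms G d Hs Ys, |((Y ∩ Gd).card : ℝ) - Real.log d ^ 8| ≤ ε * Real.log d ^ 8
  t1 : ∀ Y ∈ sms G d Hs Ys, ∀ w, (((Y \ nb G w).card : ℝ) / Y.card - ε) * Real.log d ^ 8 ≤
    (((Y \ nb G w) ∩ Gd).card : ℝ)
  t2 : ∀ Y ∈ sms G d Hs Ys, ∀ b, ((ubl G UH c0 Y b ∩ Gd).card : ℝ) ≤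
    ((ubl G UH c0 Y b).card / Y.card + ε) * Real.log d ^ 8

/-- tests with a bound `M` for the number of tests at a vertex -/
structure TQn (M : ℕ) (s : ℝ) (d : ℕ) {T : Type} {J : Type u} [Fintype J]
    (Φ : J → (V → T) → ℝ) (c : J → V → ℝ) (t : J → ℝ) : Prop where
  c0 : ∀ j v, 0 ≤ c j v
  lip : ∀ j v (f f' : V → T), (∀ w, w ≠ v → f w = f' w) → |Φ j f - Φ j f'| ≤ c j v
  num : ∀ v, (univ.filter (fun j => c j v ≠ 0)).card ≤ M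
  t0 : ∀ j, 0 < t j
  big : ∀ j, s * (Real.log d ^ 2 + ((univ.filter (fun v => c j v ≠ 0)).card : ℝ) / d) *
    ∑ v, c j v ^ 2 ≤ t j ^ 2

/-- facts about the types `u` -/
structure LBF {ι : Type} (ε : ℝ) (G : SimpleGraph V) (d : ℕ) (Ys : Finset (Finset V))
    (Hs Gd : Finset V) (u : V → Option ι) (j0 : ι) : Prop where
  spc : ∀ Y ∈ shs d Ys, Y ∉ sms G d Hs Ys →
    ∑ v ∈ (Y \ Hs).filter (fun v => u v = none ∨ u v = some j0),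
      ((d : ℝ) - (nb G v ∩ Y).card) ≤ ε * wl G d Hs Y
  spS : ∀ Y ∈ sms G d Hs Ys,
    (((Y \ Hs).filter (fun v => u v = none ∨ u v = some j0)).card : ℝ) ≤ ε * Y.card
  gd : ∀ Y ∈ sms G d Hs Ys, ∀ i,
    (((Y ∩ Gd).filter (fun v => u v = none ∨ u v = some i)).card : ℝ) ≤ ε * Real.log d ^ 8

/-- facts about the other labels: `sp` = split label, `hm v y` = the missing colour of `y` may be a
colour at `v` -/
structure LAF {κ : Type} (ε δ1 : ℝ) (G : SimpleGraph V) (d : ℕ) (Ys : Finset (Finset V))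
    (UH Hs Gd : Finset V) (sp : V → κ) (hm : V → V → Prop) : Prop where
  spl : ∀ Y ∈ shs d Ys, Y ∉ sms G d Hs Ys →
    ((∑ v ∈ Y \ Hs, ((nb G v).filter (fun y => ¬ InS Ys y ∧ sp y = sp v)).card : ℕ) : ℝ) ≤
      ε * wl G d Hs Y
  hMl : ∀ Y ∈ shs d Ys, Y ∉ sms G d Hs Ys →
    ((∑ v ∈ Y \ Hs, ((nb G v).filter (fun y => ¬ InS Ys y ∧ y ∉ UH ∧
      (bt G (shs d Ys) (Lts Ys Hs) y : ℝ) ≤ δ1 * d ∧ hm v y)).card : ℕ) : ℝ) ≤
    3 / 4 * ((∑ v ∈ Y \ Hs, ((nb G v).filter (fun y => ¬ InS Ys y ∧ y ∉ UH ∧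
      (bt G (shs d Ys) (Lts Ys Hs) y : ℝ) ≤ δ1 * d)).card : ℕ) : ℝ) + ε * wl G d Hs Y
  gd : ∀ Y ∈ sms G d Hs Ys, ∀ s s',
    (((Y ∩ Gd).filter (fun v => sp v = s ∨ sp v = s')).card : ℝ) ≤ ε * Real.log d ^ 8

/-- facts about the own colours `cc` of the outer vertices -/
structure OWF (a c : ℝ) (G : SimpleGraph V) (d : ℕ) (Ys : Finset (Finset V))
    (UH Hs Gd : Finset V) (c0 : V → Fin k) (K0 : Finset (Fin k)) (cc : V → Fin k) : Prop where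
  cU : ∀ v ∈ UH, cc v = c0 v
  cK : ∀ v, v ∉ UH → cc v ∈ K0
  pr : ∀ v w, (InS Ys v → v ∈ UH) → (InS Ys w → w ∈ UH) → G.Adj v w → cc v ≠ cc w
  gdc : ∀ Y ∈ sms G d Hs Ys, ∀ w w', ¬ InS Ys w → ¬ InS Ys w' → w ∉ UH → w' ∉ UH → w ≠ w' →
    (nb G w ∩ (Y ∩ Gd)).Nonempty → (nb G w' ∩ (Y ∩ Gd)).Nonempty → cc w ≠ cc w'
  gdx : ∀ Y ∈ sms G d Hs Ys, ∀ w, ¬ InS Ys w → w ∉ UH → (nb G w ∩ (Y ∩ Gd)).Nonempty →
    ((ubl G UH c0 Y (cc w)).card : ℝ) ≤ a * Y.card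
  dead : ∀ Y ∈ shs d Ys, Y ∉ sms G d Hs Ys → ∀ F : Finset (Fin k),
    (∀ b ∈ F, (1 - a) * (Y \ Hs).card ≤
      ((fb G ((UH ∪ outer Ys) \ Y) cc (Y \ Hs) b).card : ℝ)) →
    (F.card : ℝ) * Y.card ≤ (1 - c) * wl G d Hs Y

/-- the colours which are not used in `Y` -/
noncomputable def Fyd (a ε : ℝ) (G : SimpleGraph V) (d : ℕ) (Ys : Finset (Finset V))
    (UH Hs : Finset V) (c0 : V → Fin k) (K0 : Finset (Fin k)) (cc : V → Fin k) (Y : Finset V) :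
    Finset (Fin k) :=
  if Y ∈ sms G d Hs Ys then K0.filter (fun b =>
    (1 - ε) * Y.card ≤ ((ubl G UH c0 Y b \ Hs).card : ℝ))
  else K0.filter (fun b => (1 - a) * (Y \ Hs).card ≤
    ((fb G ((UH ∪ outer Ys) \ Y) cc (Y \ Hs) b).card : ℝ))

end defs

/-! ## Blocks -/

/-- GDX (block, from GUARD, with `gss`): guards. The test sets are `Y`, `Y \ N(w)` for the vertices
`w` with a neighbour in `Y`, and `ubl Y (c0 w)` for such `w ∈ UH`. -/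
def Stmt_GDX : Prop :=
  ∀ ε : ℝ, 0 < ε → ε ≤ 1 / 10 → ∃ (η : ℝ) (d0 : ℕ), 0 < η ∧
    ∀ {V : Type u} [Fintype V] {k : ℕ} (θ θ' : ℝ) (G EH : SimpleGraph V) (d : ℕ)
      (Ys : Finset (Finset V)) (UH Hs : Finset V) (c0 tu : V → Fin k), d0 ≤ d →
      θ ≤ 1 / 100 → Grp θ θ' η G EH d Ys UH Hs c0 tu →
      (∀ Y ∈ Ys, ((Y ∩ Hs).card : ℝ) ≤ η * Y.card) →
      ∃ Gd : Finset V, Gds ε G EH d Ys UH Hs Gd c0

/-- TLB (block): the tests for the first labels `lb`. Linear tests `∑ ω v [u v ∈ P]` with `ω v` =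
outer degree, 1, or 1 at the guards. `u v` is uniform: probability of `none` or `some i` at most
`1 / R0` each. -/
def Stmt_TLB : Prop :=
  ∀ ε : ℝ, 0 < ε → ∃ (Rm : ℕ) (s : ℝ), 0 < s ∧ ∀ (M1 R0 : ℕ), Rm ≤ R0 → ∃ d0 : ℕ,
    ∀ {V : Type u} [Fintype V] {k : ℕ} (θ θ' η εg : ℝ) (G EH : SimpleGraph V) (d : ℕ)
      (Ys : Finset (Finset V)) (UH Hs Gd : Finset V) (c0 tu : V → Fin k) (j0 : Fin R0),
      d0 ≤ d → θ ≤ 1 / 100 → εg ≤ 1 / 10 → Grp θ θ' η G EH d Ys UH Hs c0 tu →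
      Gds εg G EH d Ys UH Hs Gd c0 →
      ∃ (J : Type u) (_ : Fintype J) (Φ : J → (V → Lb M1 R0) → ℝ) (ct : J → V → ℝ)
        (tt : J → ℝ), TQn (d ^ 3) s d Φ ct tt ∧ ∀ lb : V → Lb M1 R0,
        (∀ j, |Φ j lb - avgL (Φ j)| ≤ tt j) →
        LBF ε G d Ys Hs Gd (fun v => (lb v).2.2.map Prod.snd) j0

/-- TLA (block): the tests for the labels `lab`. `∑_(v ∈ Y \ Hs) #{y ∈ N(v) outer : sp y = sp v}` has
average at most `wl / (K1 + 1)`, the sum with `hm` (`um`, `jm` are given) has average at most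
`(2 / 3 + 1 / (2 l + 1))` times the number of pairs; constants `ct` = number of pairs at the vertex
(`≤ d`, sum `≤ 2 wl`), error `ε wl / 2`, `wl ≥ log ^ 3 d |Y|`, `s ≤ ε ^ 2 / 100`. -/
def Stmt_TLA : Prop :=
  ∀ ε : ℝ, 0 < ε → ∃ (Km : ℕ) (s : ℝ), 0 < s ∧ ∀ (l m r K K1 S : ℕ) (X : Type) [Fintype X]
    [Nonempty X], Km ≤ K1 → 20 ≤ l → ∃ d0 : ℕ,
    ∀ {V : Type u} [Fintype V] {k : ℕ} (θ θ' η εg δ1 : ℝ) (G EH : SimpleGraph V) (d : ℕ)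
      (Ys : Finset (Finset V)) (UH Hs Gd : Finset V) (c0 tu : V → Fin k) (um : V → ZMod 3)
      (jm : ZMod 3), d0 ≤ d → θ ≤ 1 / 100 → εg ≤ 1 / 10 →
      Grp θ θ' η G EH d Ys UH Hs c0 tu → Gds εg G EH d Ys UH Hs Gd c0 →
      ∃ (J : Type u) (_ : Fintype J) (Φ : J → (V → Lh l m r K K1 S × X) → ℝ) (ct : J → V → ℝ)
        (tt : J → ℝ), TQn (d ^ 3) s d Φ ct tt ∧ ∀ lab : V → Lh l m r K K1 S × X,
        (∀ j, |Φ j lab - avgL (Φ j)| ≤ tt j) →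
        LAF ε δ1 G d Ys UH Hs Gd (fun v => sp (lab v).1)
          (fun v y => mM (lab y).1 ∨ pt (lab y).1 = um v ∨ pt (lab y).1 = jm)

/-- OWX (block, from OWN): own colours. `C2` = conflicts between vertices adjacent to guards of the
same spot (degree `≤ log ^ 30 d`), `Fx w` = colours `b` with `|ubl Y b| > a |Y|` for the spots `Y` with
a guard adjacent to `w` (every vertex has at most two neighbours in `UH`); on the spots `cc` is an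
arbitrary colour of `K0`; the tests are those of OWN. -/
def Stmt_OWX : Prop :=
  ∃ κ1 : ℝ, 0 < κ1 ∧ κ1 ≤ 1 ∧ ∀ ζ : ℝ, 0 < ζ → ζ ≤ 1 → ∃ η : ℝ, 0 < η ∧ ∀ g : ℝ, 0 < g →
    g ≤ 1 / 10 → ∃ κ : ℝ, 0 < κ ∧ κ ≤ 1 ∧ ∀ (l m r K K1 S : ℕ), ∃ (σ s : ℝ) (d0 : ℕ),
    0 < σ ∧ 0 < s ∧
    ∀ {V : Type u} [Fintype V] {k : ℕ} (θ θ' η1 εg : ℝ) (G EH : SimpleGraph V) (d : ℕ)
      (Ys : Finset (Finset V)) (UH Hs Gd : Finset V) (c0 tu : V → Fin k), d0 ≤ d →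
      θ ≤ 1 / 100 → εg ≤ 1 / 10 → η1 ≤ η → Spt θ ζ η1 g G d Ys →
      Grp θ θ' η1 G EH d Ys UH Hs c0 tu → (∀ Y ∈ Ys, ((Y ∩ Hs).card : ℝ) ≤ η * Y.card) →
      Gds εg G EH d Ys UH Hs Gd c0 →
      ∃ (J : Type u) (_ : Fintype J) (Φ : J → (V → Lh l m r K K1 S × Unit) → ℝ)
        (ct : J → V → ℝ) (tt : J → ℝ), TQn (d ^ 4) s d Φ ct tt ∧
        ∀ lab : V → Lh l m r K K1 S × Unit, (∀ j, |Φ j lab - avgL (Φ j)| ≤ tt j) →
        (∀ GO : SimpleGraph V, (∀ v w, GO.Adj v w ↔ G.Adj v w ∧ ¬ InS Ys v ∧ ¬ InS Ys w) →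
          LabD GO d σ lab) →
        ∀ (K0 : Finset (Fin k)) (ow : Fin k → Option (ZMod (2 * m + 1) × Fin (r + 1))),
        K0.card = d + 2 → (∀ b q, ow b = some q → b ∈ K0) →
        (∀ q, (1 - κ) * d ≤
          (2 * m + 1) * (r + 1) * ((univ.filter (fun b => ow b = some q)).card : ℝ)) →
        (∀ q, 2 * ((2 * m + 1) * (r + 1) * (univ.filter (fun b => ow b = some q)).card) ≤
          3 * d) →
        ∃ cc : V → Fin k, (∀ v, v ∉ UH → ¬ InS Ys v →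
            ow (cc v) = some (ce (lab v).1, su (lab v).1)) ∧
          OWF (κ1 * ζ / 100) (κ1 * ζ / 100) G d Ys UH Hs Gd c0 K0 cc

/-- AVB (block): availability at the short spots with large outer degree. -/
def Stmt_AVB : Prop :=
  ∀ a : ℝ, 0 < a → a ≤ 1 → ∃ δ0 : ℝ, 0 < δ0 ∧ ∀ (δ x : ℝ), δ ≤ δ0 → 0 < x → x ≤ a / 10 →
    ∃ d0 : ℕ,
    ∀ {V : Type u} [Fintype V] {k : ℕ} (θ θ' η π c ε : ℝ) (G EH : SimpleGraph V) (d : ℕ)
      (Ys : Finset (Finset V)) (UH Hs Gd : Finset V) (c0 tu cc : V → Fin k)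
      (t : V → V → Fin k) (E : V → Finset (Fin k)) (K0 : Finset (Fin k))
      (C : Fin 3 → Finset (Fin k)) (p : V → Fin 3) (aa : V → Bool) (Z : Finset V), d0 ≤ d →
      θ ≤ 1 / 100 → Grp θ θ' η G EH d Ys UH Hs c0 tu →
      OWF a c G d Ys UH Hs Gd c0 K0 cc →
      Out δ π G (Gxh G Ys Hs) (Grh G EH Ys Hs) EH d Ys UH c0 tu cc t E K0 C p aa Z →
      ∀ Y ∈ shs d Ys, Y ∉ sms G d Hs Ys → ∀ b ∈ K0, b ∉ Fyd a ε G d Ys UH Hs c0 K0 cc Y →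
        b ∉ (Y ∩ UH).image c0 → 2 * x * d ≤ ((avl G Ys UH cc E Y b).card : ℝ)

/-- AVG (block): usable guards in the short spots with small outer degree. If many vertices of `Y`
are blocked by `UH` (`|ubl Y b| > a |Y|`), no other outer vertex adjacent to a guard of `Y` has the
colour `b` (`gdx`), otherwise at most one (`gdc`), and it misses `ζ d` vertices of `Y`. The types and
the split labels exclude few guards. -/
def Stmt_AVG : Prop :=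
  ∀ ζ ε : ℝ, 0 < ζ → ζ ≤ 1 → 0 < ε → ε ≤ 1 / 10 → ∃ (a0 εg : ℝ), 0 < a0 ∧ 0 < εg ∧
    εg ≤ 1 / 10 ∧ ∃ d0 : ℕ,
    ∀ {V : Type u} [Fintype V] {k : ℕ} {ι κ : Type} (θ θ' η δ1 a c : ℝ)
      (G EH : SimpleGraph V) (d : ℕ) (Ys : Finset (Finset V)) (UH Hs Gd : Finset V)
      (c0 tu cc : V → Fin k) (E : V → Finset (Fin k)) (K0 E1 : Finset (Fin k))
      (vb : Fin k → Option ι) (sy : Fin k → κ × κ) (u : V → Option ι) (j0 : ι) (sp : V → κ)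
      (hm : V → V → Prop), d0 ≤ d → θ ≤ 1 / 100 → a ≤ ζ / 4 →
      Grp θ θ' η G EH d Ys UH Hs c0 tu →
      (∀ Y ∈ Ys, ∀ v, v ∉ Y → ζ * d ≤ ((Y \ nb G v).card : ℝ)) →
      (∀ Y ∈ Ys, ((Y ∩ Hs).card : ℝ) ≤ εg * Y.card) → Gds εg G EH d Ys UH Hs Gd c0 →
      LBF εg G d Ys Hs Gd u j0 → LAF εg δ1 G d Ys UH Hs Gd sp hm →
      OWF a c G d Ys UH Hs Gd c0 K0 cc →
      (∀ v i, Lgt Ys Hs v → v ∉ UH → u v = some i → ∀ b ∈ E v,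
        (b ∉ E1 ∧ vb b = some i) ∨ (b ∈ E1 ∧ (sp v = (sy b).1 ∨ sp v = (sy b).2))) →
      ∀ Y ∈ sms G d Hs Ys, ∀ b ∈ K0, b ∉ Fyd a ε G d Ys UH Hs c0 K0 cc Y →
        b ∉ (Y ∩ UH).image c0 →
        a0 * Real.log d ^ 8 + 1 ≤ ((avl G Ys UH cc E Y b ∩ Gd).card : ℝ)

/-- MTP (block, helper94): glued pairs. `pn Y = |Fy Y| + |Y| - (d + 2)` (truncated; 0 for the spots in
`sms`). The nonadjacent pairs of `Y` with a light end outside `UH`: at least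
`(wl - 2 d - (d + 1 - |Y|) |Y|) / 2 ≥ pn |Y| / 2`, every vertex is in at most `θ d` of them: greedily. -/
def Stmt_MTP : Prop :=
  ∀ c : ℝ, 0 < c → c ≤ 1 → ∃ d0 : ℕ,
    ∀ {V : Type u} [Fintype V] {k : ℕ} (θ θ' η : ℝ) (G EH : SimpleGraph V) (d : ℕ)
      (Ys : Finset (Finset V)) (UH Hs Gd : Finset V) (c0 tu : V → Fin k)
      (Fy : Finset V → Finset (Fin k)), d0 ≤ d → θ ≤ 1 / 100 →
      Grp θ θ' η G EH d Ys UH Hs c0 tu →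
      (∀ Y ∈ shs d Ys, Y ∉ sms G d Hs Ys →
        ((Fy Y).card : ℝ) * Y.card ≤ (1 - c) * wl G d Hs Y) →
      (∀ Y ∈ sms G d Hs Ys, (Fy Y).card ≤ 2) → (∀ v ∈ Gd, ∃ Y ∈ sms G d Hs Ys, v ∈ Y) →
      ∃ (Mt : SimpleGraph V) (pn : Finset V → ℕ), IsMat Mt ∧
        (∀ Y ∈ shs d Ys, (Fy Y).card + Y.card ≤ d + 2 + pn Y) ∧
        (∀ Y ∈ shs d Ys, pn Y ≤ (Fy Y).card) ∧
        (∀ v w, Mt.Adj v w → Same (shs d Ys) v w ∧ ¬ G.Adj v w ∧ v ∉ UH ∧ v ∉ Gd) ∧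
        ∀ Y ∈ shs d Ys, (Y.filter (fun v => (nb Mt v).Nonempty)).card = 2 * pn Y

/-- the edges between the vertices outside the spots and the light vertices of the short spots -/
def Gdd {V : Type u} [Fintype V] (G : SimpleGraph V) (d : ℕ) (Ys : Finset (Finset V))
    (Hs : Finset V) : SimpleGraph V where
  Adj v w := G.Adj v w ∧ ((¬ InS Ys v ∧ InS (shs d Ys) w ∧ w ∈ Lts Ys Hs) ∨
    (¬ InS Ys w ∧ InS (shs d Ys) v ∧ v ∈ Lts Ys Hs))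
  symm := ⟨fun _ _ h => ⟨h.1.symm, h.2.symm⟩⟩
  loopless := ⟨fun v h => G.loopless.irrefl v h.1⟩

/-- DENX (block): `Prep.den` from the degrees of the labels in `Gdd`: types have probability at most
`1 / R0`, split labels `1 / (K1 + 1)`, at most two neighbours in `UH`, `log ^ 9 d` neighbours in `Gd`. -/
def Stmt_DENX : Prop :=
  ∀ ε2 : ℝ, 0 < ε2 → ∃ (Rm Km : ℕ) (σ : ℝ), 0 < σ ∧ ∀ (M1 R0 l m r K K1 S : ℕ), Rm ≤ R0 →
    Km ≤ K1 → ∃ d0 : ℕ,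
    ∀ {V : Type u} [Fintype V] {k : ℕ} (θ θ' η εg : ℝ) (G EH : SimpleGraph V) (d : ℕ)
      (Ys : Finset (Finset V)) (UH Hs Gd : Finset V) (c0 tu : V → Fin k) (j0 : Fin R0)
      (lb : V → Lb M1 R0) (lab : V → Lh l m r K K1 S × Unit), d0 ≤ d →
      Grp θ θ' η G EH d Ys UH Hs c0 tu → Gds εg G EH d Ys UH Hs Gd c0 →
      LabD (Gdd G d Ys Hs) d σ lb → LabD (Gdd G d Ys Hs) d σ lab →
      ∀ y (i : Fin R0) (s s' : Fin (K1 + 1)), ¬ InS Ys y →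
        ((((nb G y).filter (fun v => InS (shs d Ys) v ∧ v ∈ Lts Ys Hs)).filter
          (fun v => (lb v).2.2.map Prod.snd = none ∨ (lb v).2.2.map Prod.snd = some j0 ∨
            (lb v).2.2.map Prod.snd = some i ∨ sp (lab v).1 = s ∨ sp (lab v).1 = s' ∨
            v ∈ UH ∪ Gd)).card : ℝ) ≤ ε2 * d

/-- UHC (block): `Prep.uh` by double counting, at most two neighbours in `UH` (`HPre.far`). -/
def Stmt_UHC : Prop :=
  ∀ {V : Type u} [Fintype V] {k : ℕ} (θ θ' η a ε : ℝ) (G EH : SimpleGraph V) (d : ℕ)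
    (Ys : Finset (Finset V)) (UH Hs : Finset V) (c0 tu cc : V → Fin k) (K0 : Finset (Fin k)),
    θ ≤ 1 / 100 → 0 < d → ε ≤ 1 / 10 → Grp θ θ' η G EH d Ys UH Hs c0 tu →
    ∀ Y ∈ sms G d Hs Ys,
      ((Fyd a ε G d Ys UH Hs c0 K0 cc Y).card : ℝ) * (1 - ε) * Y.card ≤
        ((∑ v ∈ Y \ Hs, ((nb G v).filter (fun y => y ∉ Y ∧ y ∈ UH)).card : ℕ) : ℝ) ∧
      (Fyd a ε G d Ys UH Hs c0 K0 cc Y).card ≤ 2

/-- KSS (block): `Prep.kss`: the colours of the class `(none, j0)`. -/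
def Stmt_KSS : Prop :=
  ∀ {k n m r M1 R0 : ℕ} (κ : ℝ) (d D : ℕ) (K0 E1 : Finset (Fin k))
    (cs : Fin k → Option (Fin n)) (ow : Fin k → Option (ZMod (2 * m + 1) × Fin (r + 1)))
    (e : Kp M1 × Fin R0 ≃ Fin n) (j0 : Fin R0), ColD (1 / 10) κ d D K0 E1 cs ow →
    ∀ C : Fin 3 → Finset (Fin k), (∀ j, C j ⊆ K0.filter (fun b => b ∉ E1 ∧
      ∃ i, cs b = some i ∧ kt (e.symm i).1 = some j)) →
    ∀ i j, 1 / (2 * ((n : ℝ) + 1)) * d ≤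
      ((Ks K0 E1 (fun b => (cs b).map (fun i => (e.symm i).2)) j0 \ (C i ∪ C j)).card : ℝ)

/-- PREP (helper38, from the blocks above, OVS and MTP). -/
def Stmt_PREP : Prop :=
  ∀ (π θ δ1 ε2 : ℝ), 1 / 4 ≤ π → π < 1 / 3 → 0 < θ → θ ≤ 1 / 100 → 0 < δ1 → 0 < ε2 →
    ∀ ζ : ℝ, 0 < ζ → ζ ≤ 1 → ∃ (c x : ℝ), 0 < c ∧ c ≤ 1 ∧ 0 < x ∧ x ≤ θ ∧
    ∀ (ε δ : ℝ), 0 < ε → 0 < δ → ∃ (ρ : ℝ), 0 < ρ ∧ ∀ θ' : ℝ, 0 < θ' → ∃ η0 : ℝ, 0 < η0 ∧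
    ∀ η : ℝ, 0 < η → η ≤ η0 → ∀ g : ℝ, 0 < g → g ≤ 1 / 10 → ∃ (a0 : ℝ) (d0 : ℕ), 0 < a0 ∧
    ∀ {V : Type u} [Fintype V] (G : SimpleGraph V) (d k : ℕ) (Ys : Finset (Finset V))
      (UH : Finset V) (c0 : V → Fin k) (EH : SimpleGraph V) (tu : V → Fin k), d0 ≤ d →
      d ≤ Fintype.card V → d + 2 ≤ k → (∀ v, (nb G v).card ≤ d) → Spt θ ζ η g G d Ys →
      HPre G UH c0 EH tu → (∀ Y ∈ Ys, (Y ∩ UH).card ≤ 2) →
      ∃ (ι κ : Type) (Gd Hs : Finset V) (cc : V → Fin k) (t : V → V → Fin k)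
        (E : V → Finset (Fin k)) (K0 : Finset (Fin k)) (C : Fin 3 → Finset (Fin k))
        (p : V → Fin 3) (a : V → Bool) (Z : Finset V) (μ : V → Fin k) (E1 : Finset (Fin k))
        (vb : Fin k → Option ι) (sy : Fin k → κ × κ) (u : V → Option ι) (j0 : ι) (sp : V → κ)
        (hM : V → V → Prop) (Fy : Finset V → Finset (Fin k)) (Mt : SimpleGraph V)
        (pn : Finset V → ℕ),
        Prep δ π θ θ' δ1 ε2 c ε x ρ η a0 G EH d Ys UH Gd Hs c0 tu cc t E K0 C p a Z μ E1 vb sy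
          u j0 sp hM Fy Mt pn

end Pool.Agent.Work.MP_db9399_sx
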