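import Pool.Agent.Work.MP_db9399_sv.Geo
import Pool.Agent.Work.MP_db9399_sw.Ov
import Pool.Agent.Work.MP_db9399_sw.Guard

/-!
# MP_db9399, PHASE 2 of exception (iii): the final assembly (owner helper38)

`Prep` = the situation after the run of the machine (own colours of the outer vertices, colours of
all outer edges except light-light, guards, `Fy`, glued pairs). END: from `Prep` to the total
colouring (SSE3, GEO, SERV, VMIX, FIN). See `BLUEPRINT.md`.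
-/

set_option autoImplicit false

namespace Pool.Agent.Work.MP_db9399_sx

open Finset Classical
open Pool.Agent.Work.MP_db9399_all (nb)
open Pool.Agent.Work.MP_db9399_dn (IsMat Tot)
open Pool.Agent.Work.MP_db9399_bg (HPre)
open Pool.Agent.Work.MP_db9399_sl (InS Same Gout Gss Gin Gex Out Vert Spt Bip)
open Pool.Agent.Work.MP_db9399_sv (Cor Mis slo ms FE GsL GxL bt slL Bas Lab Big Sma Sit)
open Pool.Agent.Work.MP_db9399_sw (shs sms wt wl od ac avl SHH Gxh Grh Lgt)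
open _root_.MP_db9399_co

universe u

section defs
variable {V : Type u} [Fintype V] {k : ℕ}

/-- the light vertices of the spots -/
noncomputable def Lts (Ys : Finset (Finset V)) (Hs : Finset V) : Finset V :=
  univ.filter (fun v => InS Ys v ∧ v ∉ Hs)

/-- the palette for the edges between light vertices of different spots -/
noncomputable def Ks {ι : Type} (K0 E1 : Finset (Fin k)) (vb : Fin k → Option ι) (j0 : ι) :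
    Finset (Fin k) := K0.filter (fun b => b ∉ E1 ∧ vb b = some j0)

/-- The graph and its spots. `θ`: spot vertices; `θ'`: light vertices; `η`: whole spots; `Hs` = heavy
vertices. -/
structure Grp (θ θ' η : ℝ) (G EH : SimpleGraph V) (d : ℕ) (Ys : Finset (Finset V))
    (UH Hs : Finset V) (c0 tu : V → Fin k) : Prop where
  deg : ∀ v, (nb G v).card ≤ d
  pre : HPre G UH c0 EH tu
  dis : ∀ Y ∈ Ys, ∀ Y' ∈ Ys, Y ≠ Y' → Disjoint Y Y'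
  low : ∀ Y ∈ Ys, (1 - θ) * d ≤ (Y.card : ℝ)
  upp : ∀ Y ∈ Ys, (Y.card : ℝ) ≤ (1 + θ) * d
  din : ∀ Y ∈ Ys, ∀ v ∈ Y, (1 - θ) * d ≤ ((nb G v ∩ Y).card : ℝ)
  inn : ∀ Y ∈ Ys, ∀ v ∈ Y, ((Y \ nb G v).card : ℝ) ≤ θ * d
  sum : ∀ Y ∈ Ys, wt G d Y ≤ η * d * Y.card
  uh2 : ∀ Y ∈ Ys, (Y ∩ UH).card ≤ 2
  hsS : ∀ v ∈ Hs, InS Ys v
  lig : ∀ Y ∈ Ys, ∀ v ∈ Y, v ∉ Hs → (1 - θ') * d ≤ ((nb G v ∩ Y).card : ℝ)
  hsc : ∀ Y ∈ Ys, 10 ^ 4 * (Y ∩ Hs).card ≤ Y.card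

/-- The situation after the run of the machine. `vb b` = class of the colour `b`, `u v` = type of the
light vertex `v`, `sp v` = split label, `hM v y`: the missing colour `μ y` may be a colour at `v`;
`Gd` = guards, `a0 log ^ 8 d` = number of usable guards; `Fy Y` = colours not to be used in `Y`;
`Mt` = glued pairs (`pn Y` pairs in `Y`). -/
structure Prep {ι κ : Type} (δ π θ θ' δ1 ε2 c ε x ρ η a0 : ℝ) (G EH : SimpleGraph V) (d : ℕ)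
    (Ys : Finset (Finset V)) (UH Gd Hs : Finset V) (c0 tu cc : V → Fin k)
    (t : V → V → Fin k) (E : V → Finset (Fin k)) (K0 : Finset (Fin k))
    (C : Fin 3 → Finset (Fin k)) (p : V → Fin 3) (a : V → Bool) (Z : Finset V)
    (μ : V → Fin k) (E1 : Finset (Fin k)) (vb : Fin k → Option ι) (sy : Fin k → κ × κ)
    (u : V → Option ι) (j0 : ι) (sp : V → κ) (hM : V → V → Prop)
    (Fy : Finset V → Finset (Fin k)) (Mt : SimpleGraph V) (pn : Finset V → ℕ) : Prop where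
  grp : Grp θ θ' η G EH d Ys UH Hs c0 tu
  out : Out δ π G (Gxh G Ys Hs) (Grh G EH Ys Hs) EH d Ys UH c0 tu cc t E K0 C p a Z
  Cu : ∀ j, ((C j).card : ℝ) ≤ π * d + 1
  mis : ∀ y, ¬ InS Ys y → Mis G cc K0 μ t y
  kss : ∀ i j, ρ * d ≤ ((Ks K0 E1 vb j0 \ (C i ∪ C j)).card : ℝ)
  typ : ∀ v i, Lgt Ys Hs v → v ∉ UH → u v = some i → ∀ b ∈ E v,
    (b ∉ E1 ∧ vb b = some i) ∨ (b ∈ E1 ∧ (sp v = (sy b).1 ∨ sp v = (sy b).2))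
  edg : ∀ v y i, Lgt Ys Hs v → v ∉ UH → ¬ InS Ys y → G.Adj v y → u v = some i →
    (t v y ∉ E1 ∧ vb (t v y) = some i) ∨
      (t v y ∈ E1 ∧ y ∉ UH ∧ (sp v = (sy (t v y)).1 ∨ sp v = (sy (t v y)).2) ∧
        (sp y = (sy (t v y)).1 ∨ sp y = (sy (t v y)).2))
  hst : ∀ v y i, Lgt Ys Hs v → v ∉ UH → ¬ InS Ys y → G.Adj v y → u v = some i →
    y ∈ UH ∨ ¬ hM v y → μ y ∉ E1 ∧ vb (μ y) ≠ some i ∧ vb (μ y) ≠ some j0
  den : ∀ y i s s', ¬ InS Ys y → ((((nb G y).filter (fun v => InS (shs d Ys) v ∧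
    v ∈ Lts Ys Hs)).filter (fun v => u v = none ∨ u v = some j0 ∨ u v = some i ∨ sp v = s ∨
      sp v = s' ∨ v ∈ UH ∪ Gd)).card : ℝ) ≤ ε2 * d
  FyK : ∀ Y ∈ shs d Ys, Fy Y ⊆ K0
  -- short spots with large outer degree
  cnt : ∀ Y ∈ shs d Ys, Y ∉ sms G d Hs Ys →
    ((Fy Y).card : ℝ) * Y.card ≤ (1 - c) * wl G d Hs Y
  spc : ∀ Y ∈ shs d Ys, Y ∉ sms G d Hs Ys →
    ∑ v ∈ (Y \ Hs).filter (fun v => u v = none ∨ u v = some j0),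
      ((d : ℝ) - (nb G v ∩ Y).card) ≤ ε * wl G d Hs Y
  gss : ∀ Y ∈ shs d Ys, Y ∉ sms G d Hs Ys →
    ((∑ v ∈ Y \ Hs, (nb (Gss G EH Ys) v ∩ Gd).card : ℕ) : ℝ) ≤ ε * wl G d Hs Y
  spl : ∀ Y ∈ shs d Ys, Y ∉ sms G d Hs Ys →
    ((∑ v ∈ Y \ Hs, ((nb G v).filter (fun y => ¬ InS Ys y ∧ sp y = sp v)).card : ℕ) : ℝ) ≤
      ε * wl G d Hs Y
  hMl : ∀ Y ∈ shs d Ys, Y ∉ sms G d Hs Ys →
    ((∑ v ∈ Y \ Hs, ((nb G v).filter (fun y => ¬ InS Ys y ∧ y ∉ UH ∧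
      (bt G (shs d Ys) (Lts Ys Hs) y : ℝ) ≤ δ1 * d ∧ hM v y)).card : ℕ) : ℝ) ≤
    3 / 4 * ((∑ v ∈ Y \ Hs, ((nb G v).filter (fun y => ¬ InS Ys y ∧ y ∉ UH ∧
      (bt G (shs d Ys) (Lts Ys Hs) y : ℝ) ≤ δ1 * d)).card : ℕ) : ℝ) + ε * wl G d Hs Y
  big : ∀ Y ∈ shs d Ys, Y ∉ sms G d Hs Ys → ∀ b ∈ K0, b ∉ Fy Y → b ∉ (Y ∩ UH).image c0 →
    2 * x * d ≤ ((avl G Ys UH cc E Y b).card : ℝ)
  -- short spots with small outer degree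
  uh : ∀ Y ∈ sms G d Hs Ys, ((Fy Y).card : ℝ) * (1 - ε) * Y.card ≤
    ((∑ v ∈ Y \ Hs, ((nb G v).filter (fun y => y ∉ Y ∧ y ∈ UH)).card : ℕ) : ℝ)
  spS : ∀ Y ∈ sms G d Hs Ys,
    (((Y \ Hs).filter (fun v => u v = none ∨ u v = some j0)).card : ℝ) ≤ ε * Y.card
  gds : ∀ Y ∈ sms G d Hs Ys, ∀ b ∈ K0, b ∉ Fy Y → b ∉ (Y ∩ UH).image c0 →
    a0 * Real.log d ^ 8 + 1 ≤ ((avl G Ys UH cc E Y b ∩ Gd).card : ℝ)
  -- guards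
  gmem : ∀ v ∈ Gd, v ∉ UH ∧ v ∉ Hs ∧ (∃ Y ∈ sms G d Hs Ys, v ∈ Y) ∧
    (od G Ys v : ℝ) ≤ Real.log d ^ 5
  gupp : ∀ Y ∈ sms G d Hs Ys, ((Y ∩ Gd).card : ℝ) ≤ 2 * Real.log d ^ 8
  gind : ∀ v ∈ Gd, ∀ w ∈ Gd, ¬ (Gss G EH Ys).Adj v w
  gde : ∀ Y ∈ shs d Ys, ((∑ v ∈ Y, (nb (Gss G EH Ys) v ∩ Gd).card : ℕ) : ℝ) ≤
    x / 10 ^ 5 * (a0 * Real.log d ^ 8) * Y.card
  -- glued pairs
  Fyc : ∀ Y ∈ shs d Ys, (Fy Y).card + Y.card ≤ d + 2 + pn Y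
  pnF : ∀ Y ∈ shs d Ys, pn Y ≤ (Fy Y).card
  mat : IsMat Mt
  mta : ∀ v w, Mt.Adj v w → Same (shs d Ys) v w ∧ ¬ G.Adj v w ∧ v ∉ UH ∧ v ∉ Gd
  mtn : ∀ Y ∈ shs d Ys, (Y.filter (fun v => (nb Mt v).Nonempty)).card = 2 * pn Y

/-- The situation after SSE3. `F0 v`, `v ∈ UH` = own colour and filling colours of the spot vertex
`v`; `t'`, `E'` = new colours, `s` = bound for the new load. -/
structure Mid {ι : Type} (δ π s : ℝ) (G EH : SimpleGraph V) (d : ℕ)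
    (Ys : Finset (Finset V)) (UH Gd Hs : Finset V) (c0 tu cc : V → Fin k)
    (t : V → V → Fin k) (E F0 : V → Finset (Fin k)) (K0 : Finset (Fin k))
    (C : Fin 3 → Finset (Fin k)) (p : V → Fin 3) (a : V → Bool) (Z : Finset V)
    (E1 : Finset (Fin k)) (vb : Fin k → Option ι) (j0 : ι) (t' : V → V → Fin k)
    (E' : V → Finset (Fin k)) : Prop where
  out : Out δ π G (Gex G Ys) ⊥ EH d Ys UH c0 tu cc t' E' K0 C p a Z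
  tx : ∀ v w, G.Adj v w → ¬ InS Ys w → t' v w = t v w
  EE : ∀ v, E v ⊆ E' v
  EK : ∀ v, E' v ⊆ E v ∪ Ks K0 E1 vb j0
  EL : ∀ v, v ∉ Lts Ys Hs → E' v = E v
  ldn : ∀ Y ∈ Ys, ∀ b, ((Y.filter (fun v => b ∈ E' v ∧ b ∉ E v)).card : ℝ) ≤ s * d
  gdn : ∀ Y ∈ Ys, ∀ b, ((Y ∩ Gd).filter (fun v => b ∈ E' v ∧ b ∉ E v)).card ≤ 1
  F0K : ∀ v ∈ UH, InS Ys v → F0 v ⊆ K0
  F0n : ∀ v ∈ UH, InS Ys v → (F0 v).card = if tu v ∈ K0 then 1 else 2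
  F0u : ∀ v, (F0 v).card ≤ 2
  F0d : ∀ v ∈ UH, InS Ys v → Disjoint (F0 v) (E' v)
  F0c : ∀ v ∈ UH, InS Ys v → c0 v ∈ K0 → c0 v ∈ F0 v

end defs

/-! ## Blocks of END -/

/-- MIDX (block, from SSE3): filling colours `F0` of the spot vertices in `UH` (`c0 v ∉ E v`; if
`c0 v ∈ K0` it is one of them), translation of `Gxh`, `Grh` to `GxL`, `GsL` with `Lt = Lts Ys Hs`
(the edges of `EH` have the colour `tu`), `Pc = F0`, guards: `log ^ 5 d` edges each. -/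
def Stmt_MIDX : Prop :=
  ∀ (δ π ρ s : ℝ), 0 < δ → 1 / 4 ≤ π → π < 1 / 3 → δ ≤ 1 / 1000 → 0 < ρ → 0 < s →
    ∃ (θ' : ℝ), 0 < θ' ∧ ∀ (a0 : ℝ), ∃ d0 : ℕ,
    ∀ {V : Type u} [Fintype V] {k : ℕ} {ι κ : Type} (θ δ1 ε2 c ε x η : ℝ)
      (G EH : SimpleGraph V) (d : ℕ) (Ys : Finset (Finset V)) (UH Gd Hs : Finset V)
      (c0 tu cc : V → Fin k) (t : V → V → Fin k) (E : V → Finset (Fin k)) (K0 : Finset (Fin k))
      (C : Fin 3 → Finset (Fin k)) (p : V → Fin 3) (a : V → Bool) (Z : Finset V)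
      (μ : V → Fin k) (E1 : Finset (Fin k)) (vb : Fin k → Option ι) (sy : Fin k → κ × κ)
      (u : V → Option ι) (j0 : ι) (sp : V → κ) (hM : V → V → Prop)
      (Fy : Finset V → Finset (Fin k)) (Mt : SimpleGraph V) (pn : Finset V → ℕ), d0 ≤ d →
      θ ≤ 1 / 100 →
      Prep δ π θ θ' δ1 ε2 c ε x ρ η a0 G EH d Ys UH Gd Hs c0 tu cc t E K0 C p a Z μ E1 vb sy u
        j0 sp hM Fy Mt pn →
      ∃ (F0 : V → Finset (Fin k)) (t' : V → V → Fin k) (E' : V → Finset (Fin k)),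
        Mid (2 * δ) π s G EH d Ys UH Gd Hs c0 tu cc t E F0 K0 C p a Z E1 vb j0 t' E'

/-- SITX (block, from GEO): `Sit` after SSE3, with `nd Y = |Fy Y|`, `Ex Y = Fy Y ∪ c0 (Y ∩ UH)`,
`X0 = UH ∪ Gd`, `Lt = Lts Ys Hs`, `Sh = shs d Ys`. -/
def Stmt_SITX : Prop :=
  ∃ z : ℝ, 0 < z ∧ ∀ δ1 : ℝ, 0 < δ1 → ∃ ρ ε2 : ℝ, 0 < ρ ∧ 0 < ε2 ∧ ∀ δs θs : ℝ, 0 < δs →
    0 < θs → ∃ θ : ℝ, 0 < θ ∧ ∀ c : ℝ, 0 < c → c ≤ 1 → ∃ (ε δ s : ℝ), 0 < ε ∧ 0 < δ ∧ 0 < s ∧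
    ∀ ηs : ℝ, 0 < ηs → ∃ (η : ℝ) (d0 : ℕ), 0 < η ∧
    ∀ {V : Type u} [Fintype V] {k : ℕ} {ι κ : Type} (δ' π θ' x ρs a0 : ℝ)
      (G EH : SimpleGraph V) (d : ℕ) (Ys : Finset (Finset V)) (UH Gd Hs : Finset V)
      (c0 tu cc : V → Fin k) (t : V → V → Fin k) (E : V → Finset (Fin k)) (K0 : Finset (Fin k))
      (C : Fin 3 → Finset (Fin k)) (p : V → Fin 3) (a : V → Bool) (Z : Finset V)
      (μ : V → Fin k) (E1 : Finset (Fin k)) (vb : Fin k → Option ι) (sy : Fin k → κ × κ)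
      (u : V → Option ι) (j0 : ι) (sp : V → κ) (hM : V → V → Prop)
      (Fy : Finset V → Finset (Fin k)) (Mt : SimpleGraph V) (pn : Finset V → ℕ)
      (F0 : V → Finset (Fin k)) (t' : V → V → Fin k) (E' : V → Finset (Fin k)), d0 ≤ d →
      Prep δ' π θ θ' δ1 ε2 c ε x ρs η a0 G EH d Ys UH Gd Hs c0 tu cc t E K0 C p a Z μ E1 vb sy
        u j0 sp hM Fy Mt pn →
      Mid δ π s G EH d Ys UH Gd Hs c0 tu cc t E F0 K0 C p a Z E1 vb j0 t' E' →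
      ∃ (nL nD : Finset V → ℕ) (Pm : V → V → Prop) (Hb : Finset V → Finset V),
        Sit z δ1 ρ δs θs ηs G EH d Ys (shs d Ys) UH (UH ∪ Gd) c0 tu cc t' E' F0 K0 μ Pm nL nD
          (fun Y => Fy Y ∪ (Y ∩ UH).image c0) Hb ∧
        ∀ Y ∈ shs d Ys, (Fy Y).card = nL Y + nD Y

/-- FINX (block, from VMIX and FIN): after SERV. `t''`, `E''`, `T` from SERV; `F0 v ∪ (E'' v ∩ K0)` is
the set of all colours at `v ∈ UH`. -/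
def Stmt_FINX : Prop :=
  ∃ (π δ θ : ℝ), 1 / 4 ≤ π ∧ π < 1 / 3 ∧ 0 < δ ∧ 0 < θ ∧ ∀ x : ℝ, 0 < x → x ≤ θ →
    ∃ η : ℝ, 0 < η ∧ ∀ a0 : ℝ, 0 < a0 → ∃ d0 : ℕ,
    ∀ {V : Type u} [Fintype V] {k : ℕ} {ι κ : Type} (δ0 θ' δ1 ε2 c ε ρs s δ' : ℝ)
      (G EH : SimpleGraph V) (d : ℕ) (Ys : Finset (Finset V)) (UH Gd Hs : Finset V)
      (c0 tu cc : V → Fin k) (t : V → V → Fin k) (E : V → Finset (Fin k)) (K0 : Finset (Fin k))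
      (C : Fin 3 → Finset (Fin k)) (p : V → Fin 3) (a : V → Bool) (Z : Finset V)
      (μ : V → Fin k) (E1 : Finset (Fin k)) (vb : Fin k → Option ι) (sy : Fin k → κ × κ)
      (u : V → Option ι) (j0 : ι) (sp : V → κ) (hM : V → V → Prop)
      (Fy : Finset V → Finset (Fin k)) (Mt : SimpleGraph V) (pn : Finset V → ℕ)
      (F0 : V → Finset (Fin k)) (t' : V → V → Fin k) (E' : V → Finset (Fin k))
      (t'' : V → V → Fin k) (E'' : V → Finset (Fin k)) (T : Finset V), d0 ≤ d → s ≤ x / 2 →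
      δ' ≤ x / 2 → δ' ≤ δ → 0 < c → c ≤ 1 → 0 < ε → ε ≤ 1 / 10 →
      Prep δ0 π θ θ' δ1 ε2 c ε x ρs η a0 G EH d Ys UH Gd Hs c0 tu cc t E K0 C p a Z μ E1 vb sy
        u j0 sp hM Fy Mt pn →
      Mid δ π s G EH d Ys UH Gd Hs c0 tu cc t E F0 K0 C p a Z E1 vb j0 t' E' →
      Cor G EH d Ys UH c0 tu cc t'' E'' F0 K0 → (∀ v, v ∉ T → E'' v = E' v) →
      (∀ v ∈ T, v ∉ UH ∪ Gd ∨ v ∈ UH) → (∀ Y ∈ Ys, ((Y ∩ T).card : ℝ) ≤ δ' * d) →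
      (∀ Y ∈ shs d Ys, (Fy Y).card ≤ ((K0 \ (Fy Y ∪ (Y ∩ UH).image c0)).filter
        (fun b => Odd (ms Y UH F0 E'' b))).card) →
      ∃ (c' : V → Fin k) (t3 : V → V → Fin k), Tot G c' t3 ∧ (∀ v ∈ UH, c' v = c0 v) ∧
        ∀ v w, EH.Adj v w → t3 v w = tu v

/-- END (helper38, from MIDX, SITX, SERV, FINX). -/
def Stmt_END : Prop :=
  ∃ (π θ δ1 ε2 : ℝ), 1 / 4 ≤ π ∧ π < 1 / 3 ∧ 0 < θ ∧ θ ≤ 1 / 100 ∧ 0 < δ1 ∧ 0 < ε2 ∧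
    ∀ c x : ℝ, 0 < c → c ≤ 1 → 0 < x → x ≤ θ → ∃ (ε δ η : ℝ), 0 < ε ∧ 0 < δ ∧ 0 < η ∧
    ∀ ρ : ℝ, 0 < ρ → ∃ θ' : ℝ, 0 < θ' ∧ ∀ a0 : ℝ, 0 < a0 → ∃ d0 : ℕ,
    ∀ {V : Type u} [Fintype V] {k : ℕ} {ι κ : Type} (G EH : SimpleGraph V) (d : ℕ)
      (Ys : Finset (Finset V)) (UH Gd Hs : Finset V) (c0 tu cc : V → Fin k)
      (t : V → V → Fin k) (E : V → Finset (Fin k)) (K0 : Finset (Fin k))
      (C : Fin 3 → Finset (Fin k)) (p : V → Fin 3) (a : V → Bool) (Z : Finset V)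
      (μ : V → Fin k) (E1 : Finset (Fin k)) (vb : Fin k → Option ι) (sy : Fin k → κ × κ)
      (u : V → Option ι) (j0 : ι) (sp : V → κ) (hM : V → V → Prop)
      (Fy : Finset V → Finset (Fin k)) (Mt : SimpleGraph V) (pn : Finset V → ℕ), d0 ≤ d →
      Prep δ π θ θ' δ1 ε2 c ε x ρ η a0 G EH d Ys UH Gd Hs c0 tu cc t E K0 C p a Z μ E1 vb sy
        u j0 sp hM Fy Mt pn →
      ∃ (c' : V → Fin k) (t3 : V → V → Fin k), Tot G c' t3 ∧ (∀ v ∈ UH, c' v = c0 v) ∧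
        ∀ v w, EH.Adj v w → t3 v w = tu v

end Pool.Agent.Work.MP_db9399_sx
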